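import Pool.Agent.P.MP_e7d440_ag.Fin
import Pool.Agent.P.MP_e7d440_ag.Fina

/-! Local rings essentially of finite type over a discrete valuation ring of characteristic zero
are analytically unramified. -/

namespace Pool.Agent.P.MP_e7d440_ag.AU

open Polynomial

variable {O : Type} [CommRing O] [IsDomain O] [IsDiscreteValuationRing O] [CharZero O]

theorem conductor (C : Type) [CommRing C] [IsDomain C] [Algebra O C] [Algebra.EssFiniteType O C]
    (hi : Function.Injective (algebraMap O C)) :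
    ∃ c : C, c ≠ 0 ∧ ∀ (n y a : C) (r : ℕ), y ≠ 0 → 0 < r → n ^ r = a * y ^ r → y ∣ c * n := by
  classical
  obtain ⟨G, hG⟩ := (Algebra.essFiniteType_iff O C).1 inferInstance
  let L := FractionRing C
  let j : C →ₐ[O] L := IsScalarTower.toAlgHom O C L
  have hj : Function.Injective j := IsFractionRing.injective C L
  let s : G → L := fun g => j g
  have hS : Algebra.adjoin O (Set.range s) = (Algebra.adjoin O (G : Set C)).map j := by
    rw [AlgHom.map_adjoin]
    congr 1
    ext t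
    exact ⟨fun ⟨g, e⟩ => ⟨g, g.2, e⟩, fun ⟨g, hg, e⟩ => ⟨⟨g, hg⟩, e⟩⟩
  have hOL : Function.Injective (algebraMap O L) := by
    rw [IsScalarTower.algebraMap_eq O C L, RingHom.coe_comp]
    exact (IsFractionRing.injective C L).comp hi
  obtain ⟨c, hc, hc0, H⟩ := FinA.cond fina s hOL (by
    intro γ
    obtain ⟨p, q, hq, rfl⟩ := IsFractionRing.div_surjective (A := C) γ
    obtain ⟨u, hu, hu1, hu2⟩ := hG p
    obtain ⟨v, hv, hv1, hv2⟩ := hG q
    have hq0 : j q ≠ 0 := (map_ne_zero_iff _ hj).2 (nonZeroDivisors.ne_zero hq)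
    rw [hS]
    refine ⟨_, ⟨_, mul_mem hu2 hv, rfl⟩, _, ⟨_, mul_mem hv2 hu, rfl⟩, ?_, ?_⟩
    · exact (map_ne_zero_iff _ hj).2
        (mul_ne_zero (mul_ne_zero (nonZeroDivisors.ne_zero hq) hv1.ne_zero) hu1.ne_zero)
    · change j p / j q * j (q * v * u) = j (p * u * v)
      simp only [map_mul]
      rw [mul_assoc (j q), ← mul_assoc, div_mul_cancel₀ _ hq0]
      ring)
  rw [hS] at hc
  obtain ⟨c, -, rfl⟩ := hc
  refine ⟨c, fun h => hc0 (by rw [h]; exact map_zero _), fun n y a r hy hr e => ?_⟩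
  obtain ⟨u, hu, hu1, hu2⟩ := hG a
  have hy0 : j y ≠ 0 := (map_ne_zero_iff _ hj).2 hy
  obtain ⟨r, rfl⟩ : ∃ r', r = r' + 1 := ⟨r - 1, by omega⟩
  have h1 : (j u * j n / j y) ^ (r + 1) = j (u ^ r * (a * u)) := by
    rw [div_pow, mul_pow, ← map_pow j n, e]
    simp only [map_mul, map_pow]
    rw [div_eq_iff (pow_ne_zero _ hy0)]
    ring
  have h2 : IsIntegral (Algebra.adjoin O (Set.range s)) (j u * j n / j y) := by
    refine IsIntegral.of_pow (Nat.succ_pos r) ?_
    rw [h1]
    have hm : j (u ^ r * (a * u)) ∈ Algebra.adjoin O (Set.range s) := by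
      rw [hS]
      exact ⟨_, mul_mem (pow_mem hu r) hu2, rfl⟩
    exact isIntegral_algebraMap (R := Algebra.adjoin O (Set.range s)) (x := ⟨_, hm⟩)
  have h3 := H _ h2
  rw [hS] at h3
  obtain ⟨d, -, hd⟩ := h3
  have h4 : y * d = u * (c * n) := by
    apply hj
    change j d = j c * _ at hd
    simp only [map_mul]
    rw [hd, mul_left_comm, mul_div_cancel₀ _ hy0]
    ring
  exact (hu1.dvd_mul_left).1 ⟨d, h4.symm⟩

theorem mul_mem_pow (C : Type) [CommRing C] [IsDomain C] [Algebra O C]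
    [Algebra.EssFiniteType O C] (hi : Function.Injective (algebraMap O C)) (I : Ideal C) :
    ∃ c : C, c ≠ 0 ∧ ∀ (x : C) (j r : ℕ), 0 < r → x ^ r ∈ I ^ (j * r) → c * x ∈ I ^ j := by
  have : IsNoetherianRing C := Algebra.EssFiniteType.isNoetherianRing O C
  by_cases hI : I = ⊥
  · refine ⟨1, one_ne_zero, fun x j r hr h => ?_⟩
    rcases Nat.eq_zero_or_pos j with rfl | hj
    · simp
    · rw [hI, ← Ideal.zero_eq_bot, zero_pow (Nat.mul_pos hj hr).ne', Ideal.zero_eq_bot,
        Ideal.mem_bot] at h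
      rw [(pow_eq_zero_iff hr.ne').1 h, mul_zero]
      exact zero_mem _
  obtain ⟨y, hyI, hy⟩ := Submodule.exists_mem_ne_zero_of_ne_bot hI
  have : Algebra.EssFiniteType O (reesAlgebra I) := Algebra.EssFiniteType.comp O C _
  obtain ⟨c, hc0, H⟩ := conductor (O := O) (reesAlgebra I) (by
    rw [IsScalarTower.algebraMap_eq O C (reesAlgebra I), RingHom.coe_comp]
    refine Function.Injective.comp (fun a b h => ?_) hi
    exact C_injective (congrArg Subtype.val h))
  have hc1 : (c : C[X]) ≠ 0 := fun h => hc0 (Subtype.ext h)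
  refine ⟨(c : C[X]).leadingCoeff, leadingCoeff_ne_zero.2 hc1, fun x j r hr h => ?_⟩
  have hn : monomial j (x * y ^ j) ∈ reesAlgebra I :=
    reesAlgebra.monomial_mem.2 (Ideal.mul_mem_left _ _ (Ideal.pow_mem_pow hyI j))
  have ha : monomial (j * r) (x ^ r) ∈ reesAlgebra I := reesAlgebra.monomial_mem.2 h
  obtain ⟨d, hd⟩ := H ⟨_, hn⟩ (algebraMap C _ (y ^ j)) ⟨_, ha⟩ r
    (fun e => pow_ne_zero j hy (C_injective ((congrArg Subtype.val e).trans (map_zero _).symm)))
    hr (Subtype.ext (by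
      change (monomial j (x * y ^ j)) ^ r = monomial (j * r) (x ^ r) * (Polynomial.C (y ^ j)) ^ r
      rw [monomial_pow, ← map_pow, monomial_mul_C, mul_pow]))
  have h1 : (c : C[X]) * monomial j (x * y ^ j) = Polynomial.C (y ^ j) * d :=
    congrArg Subtype.val hd
  have h2 := congrArg (coeff · ((c : C[X]).natDegree + j)) h1
  simp only [coeff_mul_monomial, coeff_C_mul] at h2
  have h3 : (c : C[X]).leadingCoeff * x = (d : C[X]).coeff ((c : C[X]).natDegree + j) := by
    apply mul_left_cancel₀ (pow_ne_zero j hy)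
    rw [← h2, leadingCoeff]
    ring
  rw [h3]
  exact Ideal.pow_le_pow_right (Nat.le_add_left _ _) (d.2 _)

theorem mem_pow (C : Type) [CommRing C] [IsDomain C] [Algebra O C]
    [Algebra.EssFiniteType O C] (hi : Function.Injective (algebraMap O C)) (I : Ideal C) :
    ∃ k : ℕ, ∀ (x : C) (j r : ℕ), 0 < r → x ^ r ∈ I ^ ((j + k) * r) → x ∈ I ^ j := by
  have : IsNoetherianRing C := Algebra.EssFiniteType.isNoetherianRing O C
  obtain ⟨c, hc, H⟩ := mul_mem_pow (O := O) C hi I
  obtain ⟨k, hk⟩ := I.exists_pow_inf_eq_pow_smul (Ideal.span {c} : Submodule C C)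
  refine ⟨k, fun x j r hr h => ?_⟩
  have h1 : c * x ∈ I ^ (j + k) • (⊤ : Submodule C C) ⊓ (Ideal.span {c} : Submodule C C) := by
    refine ⟨?_, Ideal.mem_span_singleton.2 ⟨x, rfl⟩⟩
    rw [smul_eq_mul, Ideal.mul_top]
    exact H x _ r hr h
  rw [hk _ (Nat.le_add_left _ _), Nat.add_sub_cancel] at h1
  have h2 : c * x ∈ I ^ j * Ideal.span {c} := Submodule.smul_mono le_rfl inf_le_right h1
  obtain ⟨z, hz, e⟩ := Ideal.mem_mul_span_singleton.1 h2
  have : z = x := mul_left_cancel₀ hc (by rw [← e, mul_comm])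
  exact this ▸ hz

theorem reduced_of {B : Type} [CommRing B] (m : Ideal B) (k : ℕ)
    (h : ∀ (x : B) (j r : ℕ), 0 < r → x ^ r ∈ m ^ ((j + k) * r) → x ∈ m ^ j) :
    IsReduced (AdicCompletion m B) := by
  refine ⟨fun x hx => ?_⟩
  obtain ⟨r, hr⟩ := hx
  have hr' : x ^ (r + 1) = 0 := by rw [pow_succ, hr, zero_mul]
  obtain ⟨x, rfl⟩ := AdicCompletion.mk_surjective m B x
  refine AdicCompletion.ext_evalₐ fun n => ?_
  have h1 := congrArg (AdicCompletion.evalₐ m ((n + k) * (r + 1))) hr'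
  rw [map_pow, map_zero, AdicCompletion.evalₐ_mk, ← map_pow, Ideal.Quotient.eq_zero_iff_mem] at h1
  have h2 := h _ n (r + 1) (Nat.succ_pos r) h1
  have hle : n ≤ (n + k) * (r + 1) := by nlinarith
  have h3 := x.2 hle
  rw [SModEq.sub_mem, smul_eq_mul, Ideal.mul_top] at h3
  rw [map_zero, AdicCompletion.evalₐ_mk, Ideal.Quotient.eq_zero_iff_mem]
  simpa using add_mem h3 h2

theorem reduced (C : Type) [CommRing C] [IsDomain C] [Algebra O C]
    [Algebra.EssFiniteType O C] (hi : Function.Injective (algebraMap O C)) (B : Type)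
    [CommRing B] [Algebra B C] [Module.FaithfullyFlat B C] (m : Ideal B) :
    IsReduced (AdicCompletion m B) := by
  obtain ⟨k, hk⟩ := mem_pow (O := O) C hi (m.map (algebraMap B C))
  refine reduced_of m k fun x j r hr h => ?_
  rw [← Ideal.comap_map_eq_self_of_faithfullyFlat (B := C) (m ^ j), Ideal.mem_comap,
    Ideal.map_pow]
  refine hk _ j r hr ?_
  rw [← map_pow, ← Ideal.map_pow]
  exact Ideal.mem_map_of_mem _ h

theorem reduced_sub {O K : Type} [CommRing O] [IsDomain O] [IsDiscreteValuationRing O] [Field K]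
    [CharZero K] [Algebra O K] (hi : Function.Injective (algebraMap O K)) (A : Subalgebra O K)
    [Algebra.EssFiniteType O A] (B : Type) [CommRing B] [Algebra B A] [Module.Free B A]
    (m : Ideal B) : IsReduced (AdicCompletion m B) :=
  have : CharZero O := RingHom.charZero (algebraMap O K)
  reduced (O := O) A (fun _ _ h => hi (congrArg Subtype.val h)) B m

end Pool.Agent.P.MP_e7d440_ag.AU
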